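import Mathlib.Algebra.BigOperators.Finsupp.Basic
import Mathlib.Algebra.Module.Submodule.Lattice
import Mathlib.Algebra.Module.Submodule.LinearMap
import Mathlib.Data.Finsupp.SMul
import Mathlib.Data.Finset.Max
import Mathlib.Algebra.Field.Basic
import Mathlib.Algebra.Module.BigOperators
import Mathlib.Tactic.Ring
import Mathlib.Tactic.FieldSimp
import Mathlib.Tactic.Abel

/-! Peeling lemma: a subspace that presents a free module contains a basis. -/

set_option autoImplicit false

namespace Pool.Agent.Work.MP_1698af_al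

variable {K M G B Ω : Type*} [Field K] [AddCommGroup M] [Module K M] [Group G]
variable (τ : G → M →ₗ[K] M) (ℓ : B → G)

/-- evaluation of a formal sum -/
noncomputable def ev : (G →₀ M) →+ M := Finsupp.liftAddHom fun g => (τ g).toAddMonoidHom

/-- boundary of a family of relations -/
noncomputable def bd : (B × G →₀ M) →+ (G →₀ M) :=
  Finsupp.liftAddHom fun p => Finsupp.singleAddHom (ℓ p.1 * p.2) -
    (Finsupp.singleAddHom p.2).comp (τ (ℓ p.1)).toAddMonoidHom

/-- formal multiples of one element -/
noncomputable def sm (a : G →₀ K) (v : M) : G →₀ M := a.mapRange (fun c => c • v) (zero_smul _ _)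

omit [Group G] in
theorem sm_apply (a : G →₀ K) (v : M) (g : G) : sm a v g = a g • v := rfl

omit [Group G] in
theorem ev_single (g : G) (m : M) : ev τ (Finsupp.single g m) = τ g m := by simp [ev]

omit [Group G] in
theorem ev_apply (x : G →₀ M) : ev τ x = ∑ g ∈ x.support, τ g (x g) := by
  simp [ev, Finsupp.sum]

omit [Group G] in
theorem ev_sm (a : G →₀ K) (v : M) : ev τ (sm a v) = a.sum fun g c => c • τ g v := by
  rw [ev, Finsupp.liftAddHom_apply, sm, Finsupp.sum_mapRange_index (by simp)]
  simp

theorem bd_single (p : B × G) (m : M) : bd τ ℓ (Finsupp.single p m) =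
    Finsupp.single (ℓ p.1 * p.2) m - Finsupp.single p.2 (τ (ℓ p.1) m) := by simp [bd]

open Classical in
theorem bd_apply (u : B × G →₀ M) (g : G) : bd τ ℓ u g = ∑ p ∈ u.support,
    ((if ℓ p.1 * p.2 = g then u p else 0) - (if p.2 = g then τ (ℓ p.1) (u p) else 0)) := by
  simp [bd, Finsupp.sum, Finsupp.single_apply]

/-- `V` together with the partial multiplications by letters presents the module it generates. -/
def Presents (V : Submodule K M) : Prop :=
  ∀ x : G →₀ M, (∀ g, x g ∈ V) → ev τ x = 0 →
    ∃ u : B × G →₀ M, (∀ p, u p ∈ V ∧ τ (ℓ p.1) (u p) ∈ V) ∧ x = bd τ ℓ u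

theorem peel [LinearOrder Ω] [WellFoundedLT Ω] (hτ1 : ∀ m, τ 1 m = m)
    (hτm : ∀ g h m, τ (g * h) m = τ h (τ g m)) (φ : M →ₗ[K] (Ω →₀ K)) (sh : Ω → G → Ω)
    (hsh : ∀ t g, sh (sh t g⁻¹) g = t) (hφ : ∀ g m t, φ (τ g m) (sh t g) = φ m t)
    (uniq1 : ∀ t b b', sh t (ℓ b) ≤ t → sh t (ℓ b') ≤ t → b = b')
    (uniq2 : ∀ t b b', sh t (ℓ b)⁻¹ ≤ t → sh t (ℓ b')⁻¹ ≤ t → b = b')
    (uniq3 : ∀ t b b', sh t (ℓ b) ≤ t → ¬ sh t (ℓ b')⁻¹ ≤ t)
    (V : Submodule K M) (hpres : Presents τ ℓ V) (f : M) (hfV : f ∈ V) (hf0 : φ f = 0)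
    (hker : ∀ m, φ m = 0 → ∃ c : G →₀ K, m = ev τ (sm c f)) :
    ∃ (P : Set Ω) (v : P → M), (∀ t, v t ∈ V) ∧
      (∀ W : Submodule K M, (∀ g, ∀ m ∈ W, τ g m ∈ W) → f ∈ W → (∀ t, v t ∈ W) → V ≤ W) ∧
      (∀ (s : Finset P) (a : P → G →₀ K), φ (∑ t ∈ s, ev τ (sm (a t) (v t))) = 0 →
        ∀ t ∈ s, a t = 0) := by
  classical
  let below : M → Ω → Prop := fun m t => ∀ s, φ m s ≠ 0 → s ≤ t
  let sbelow : M → Ω → Prop := fun m t => ∀ s, φ m s ≠ 0 → s < t
  let Forced : Ω → Prop := fun t =>
    ∃ u ∈ V, ∃ g, τ g u ∈ V ∧ sbelow u t ∧ below (τ g u) t ∧ φ (τ g u) t ≠ 0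
  let P : Set Ω := {t | ¬ Forced t ∧ ∃ w ∈ V, below w t ∧ φ w t ≠ 0}
  have hv : ∀ t : P, ∃ w ∈ V, below w t ∧ φ w t ≠ 0 := fun t => t.2.2
  choose v hvV hvb hv0 using hv
  have hsb : ∀ m t, below m t → φ m t = 0 → sbelow m t := by
    intro m t h1 h2 s hs
    refine lt_of_le_of_ne (h1 s hs) ?_
    rintro rfl
    exact hs h2
  refine ⟨P, v, hvV, ?_, ?_⟩
  · intro W hWτ hfW hvW
    have hN : ∀ m, φ m = 0 → m ∈ W := by
      intro m hm
      obtain ⟨c, rfl⟩ := hker m hm
      rw [ev_sm]
      exact W.sum_mem fun g _ => W.smul_mem _ (hWτ g f hfW)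
    have key : ∀ t, ∀ m ∈ V, below m t → m ∈ W := by
      intro t
      induction t using WellFoundedLT.induction with
      | ind t ih =>
        have hs : ∀ m ∈ V, sbelow m t → m ∈ W := by
          intro m hm hmt
          by_cases h0 : φ m = 0
          · exact hN m h0
          · have hne : (φ m).support.Nonempty := Finsupp.support_nonempty_iff.mpr h0
            refine ih ((φ m).support.max' hne) (hmt _ ?_) m hm ?_
            · exact Finsupp.mem_support_iff.mp (Finset.max'_mem _ hne)
            · intro s hs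
              exact Finset.le_max' _ _ (Finsupp.mem_support_iff.mpr hs)
        intro m hm hmt
        by_cases h0 : φ m t = 0
        · exact hs m hm (hsb m t hmt h0)
        · have hw : ∃ w ∈ V, w ∈ W ∧ below w t ∧ φ w t ≠ 0 := by
            by_cases hF : Forced t
            · obtain ⟨u, huV, g, h1, h2, h3, h4⟩ := hF
              exact ⟨τ g u, h1, hWτ g u (hs u huV h2), h3, h4⟩
            · let t' : P := ⟨t, hF, m, hm, hmt, h0⟩
              exact ⟨v t', hvV t', hvW t', hvb t', hv0 t'⟩
          obtain ⟨w, hwV, hwW, hwb, hw0⟩ := hw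
          have h1 : m - (φ m t / φ w t) • w ∈ W := by
            refine hs _ (V.sub_mem hm (V.smul_mem _ hwV)) (hsb _ _ ?_ ?_)
            · intro s hs
              by_contra hst
              apply hs
              have e1 : φ m s = 0 := by
                by_contra h
                exact hst (hmt s h)
              have e2 : φ w s = 0 := by
                by_contra h
                exact hst (hwb s h)
              simp [e1, e2]
            · simp only [map_sub, map_smul, Finsupp.coe_sub, Finsupp.coe_smul, Pi.sub_apply,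
                Pi.smul_apply, smul_eq_mul]
              field_simp
              ring
          have h2 := W.add_mem h1 (W.smul_mem (φ m t / φ w t) hwW)
          simpa using h2
    intro m hm
    by_cases h0 : φ m = 0
    · exact hN m h0
    · have hne : (φ m).support.Nonempty := Finsupp.support_nonempty_iff.mpr h0
      refine key ((φ m).support.max' hne) m hm ?_
      intro s hs
      exact Finset.le_max' _ _ (Finsupp.mem_support_iff.mpr hs)
  · intro s a ha t0 ht0
    by_contra ha0
    obtain ⟨c, hc⟩ := hker _ ha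
    let x : G →₀ M := ∑ t ∈ s, sm (a t) (v t) - sm c f
    have hxg : ∀ g, x g = ∑ t ∈ s, a t g • v t - c g • f := by
      intro g
      simp [x, sm_apply]
    have hxV : ∀ g, x g ∈ V := by
      intro g
      rw [hxg]
      exact V.sub_mem (V.sum_mem fun t _ => V.smul_mem _ (hvV t)) (V.smul_mem _ hfV)
    have hx0 : ev τ x = 0 := by
      simp only [x, map_sub, map_sum]
      rw [hc, sub_self]
    obtain ⟨u, huV, hu⟩ := hpres x hxV hx0
    let Z : Finset Ω := (s.filter fun t => a t ≠ 0).image Subtype.val ∪
      u.support.biUnion fun p => (φ (u p)).support ∪ (φ (τ (ℓ p.1) (u p))).support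
    have hZ : Z.Nonempty :=
      ⟨t0, Finset.mem_union_left _ (Finset.mem_image_of_mem _ (Finset.mem_filter.mpr ⟨ht0, ha0⟩))⟩
    let z := Z.max' hZ
    have hA1 : ∀ p, below (u p) z := by
      intro p r hr
      have hp : p ∈ u.support := by
        rw [Finsupp.mem_support_iff]
        intro h
        simp [h] at hr
      exact Finset.le_max' Z r (Finset.mem_union_right _ (Finset.mem_biUnion.mpr
        ⟨p, hp, Finset.mem_union_left _ (Finsupp.mem_support_iff.mpr hr)⟩))
    have hA2 : ∀ p, below (τ (ℓ p.1) (u p)) z := by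
      intro p r hr
      have hp : p ∈ u.support := by
        rw [Finsupp.mem_support_iff]
        intro h
        simp [h] at hr
      exact Finset.le_max' Z r (Finset.mem_union_right _ (Finset.mem_biUnion.mpr
        ⟨p, hp, Finset.mem_union_right _ (Finsupp.mem_support_iff.mpr hr)⟩))
    have hA3 : ∀ t ∈ s, a t ≠ 0 → (t : Ω) ≤ z := fun t ht hat =>
      Finset.le_max' Z t (Finset.mem_union_left _
        (Finset.mem_image_of_mem _ (Finset.mem_filter.mpr ⟨ht, hat⟩)))
    have hB : ∀ p, φ (u p) z ≠ 0 → sh z (ℓ p.1) ≤ z := by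
      intro p hp
      apply hA2 p
      rwa [hφ]
    have hC : ∀ p, φ (τ (ℓ p.1) (u p)) z ≠ 0 → sh z (ℓ p.1)⁻¹ ≤ z := by
      intro p hp
      apply hA1 p
      rwa [← hφ (ℓ p.1), hsh]
    have hE : ∀ g, ∑ t ∈ s, a t g * φ (v t) z = ∑ p ∈ u.support,
        ((if ℓ p.1 * p.2 = g then φ (u p) z else 0) -
          (if p.2 = g then φ (τ (ℓ p.1) (u p)) z else 0)) := by
      intro g
      have h1 : φ (x g) z = ∑ t ∈ s, a t g * φ (v t) z := by
        rw [hxg]
        simp [hf0, Finsupp.finsetSum_apply]
      rw [← h1, hu, bd_apply, map_sum, Finsupp.finsetSum_apply]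
      refine Finset.sum_congr rfl fun p _ => ?_
      rw [map_sub, Finsupp.sub_apply]
      congr 1 <;> split_ifs <;> simp
    have hL : ∀ g, ∀ t ∈ s, (t : Ω) ≠ z → a t g * φ (v t) z = 0 := by
      intro g t ht htz
      by_cases hat : a t = 0
      · simp [hat]
      · have h1 : φ (v t) z = 0 := by
          by_contra h
          exact htz (le_antisymm (hA3 t ht hat) (hvb t z h))
        rw [h1, mul_zero]
    have hD : ∀ p, φ (u p) z = 0 ∧ φ (τ (ℓ p.1) (u p)) z = 0 := by
      by_cases hzP : z ∈ P
      · intro p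
        have hboth : φ (u p) z = 0 ∨ φ (τ (ℓ p.1) (u p)) z = 0 := by
          by_contra h
          push Not at h
          exact uniq3 z p.1 p.1 (hB p h.1) (hC p h.2)
        rcases hboth with h | h
        · refine ⟨h, ?_⟩
          by_contra h'
          exact hzP.1 ⟨u p, (huV p).1, ℓ p.1, (huV p).2, hsb _ _ (hA1 p) h, hA2 p, h'⟩
        · refine ⟨?_, h⟩
          by_contra h'
          have e : τ (ℓ p.1)⁻¹ (τ (ℓ p.1) (u p)) = u p := by rw [← hτm, mul_inv_cancel, hτ1]
          exact hzP.1 ⟨τ (ℓ p.1) (u p), (huV p).2, (ℓ p.1)⁻¹, by rw [e]; exact (huV p).1,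
            hsb _ _ (hA2 p) h, by rw [e]; exact hA1 p, by rw [e]; exact h'⟩
      · have hL0 : ∀ g, ∑ t ∈ s, a t g * φ (v t) z = 0 := by
          intro g
          refine Finset.sum_eq_zero fun t ht => hL g t ht ?_
          intro h
          exact hzP (h ▸ t.2)
        intro p0
        by_cases hp0 : p0 ∈ u.support
        swap
        · have : u p0 = 0 := Finsupp.notMem_support_iff.mp hp0
          simp [this]
        constructor
        · by_contra h0
          have h1 := hE (ℓ p0.1 * p0.2)
          have h2 : ∀ p, φ (τ (ℓ p.1) (u p)) z = 0 := by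
            intro p
            by_contra h
            exact uniq3 z p0.1 p.1 (hB p0 h0) (hC p h)
          rw [hL0, Finset.sum_eq_single p0] at h1
          · simp [h2] at h1
            exact h0 h1.symm
          · intro p _ hpp
            rw [h2, ite_self, sub_zero]
            split_ifs with h3
            · by_contra h4
              have h5 : p.1 = p0.1 := uniq1 z _ _ (hB p h4) (hB p0 h0)
              rw [h5] at h3
              exact hpp (Prod.ext h5 (mul_left_cancel h3))
            · rfl
          · intro h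
            exact absurd hp0 h
        · by_contra h0
          have h1 := hE p0.2
          have h2 : ∀ p, φ (u p) z = 0 := by
            intro p
            by_contra h
            exact uniq3 z p.1 p0.1 (hB p h) (hC p0 h0)
          rw [hL0, Finset.sum_eq_single p0] at h1
          · simp [h2] at h1
            exact h0 h1
          · intro p _ hpp
            rw [h2, ite_self, zero_sub, neg_eq_zero]
            split_ifs with h3
            · by_contra h4
              have h5 : p.1 = p0.1 := uniq2 z _ _ (hC p h4) (hC p0 h0)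
              exact hpp (Prod.ext h5 h3)
            · rfl
          · intro h
            exact absurd hp0 h
    have hzZ : z ∈ Z := Z.max'_mem hZ
    rcases Finset.mem_union.mp hzZ with h | h
    · obtain ⟨t, ht, htz⟩ := Finset.mem_image.mp h
      obtain ⟨hts, hat⟩ := Finset.mem_filter.mp ht
      apply hat
      ext g
      have h1 := hE g
      rw [Finset.sum_eq_single t, Finset.sum_eq_zero] at h1
      · rw [← htz] at h1
        exact (mul_eq_zero.mp h1).resolve_right (hv0 t)
      · intro p _
        simp [(hD p).1, (hD p).2]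
      · intro t' ht' htt'
        refine hL g t' ht' fun h2 => htt' (Subtype.ext (h2.trans htz.symm))
      · intro h2
        exact absurd hts h2
    · obtain ⟨p, -, hp⟩ := Finset.mem_biUnion.mp h
      rcases Finset.mem_union.mp hp with h1 | h1
      · exact Finsupp.mem_support_iff.mp h1 (hD p).1
      · exact Finsupp.mem_support_iff.mp h1 (hD p).2

end Pool.Agent.Work.MP_1698af_al
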