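import Pool.Agent.Work.MP_1698af_al.Tree
import Mathlib.Algebra.MonoidAlgebra.Basic
import Mathlib.Algebra.MonoidAlgebra.Module
import Mathlib.LinearAlgebra.Basis.Basic
import Mathlib.LinearAlgebra.Basis.Submodule
import Mathlib.SetTheory.Cardinal.Order
import Mathlib.Algebra.Algebra.Opposite
import Mathlib.Data.Prod.Lex

/-! Extending a primitive element to a basis supported on a subtree. -/

set_option autoImplicit false

namespace Pool.Agent.Work.MP_1698af_al

open FreeGroup MulOpposite

theorem exists_order (Ω : Type*) (len : Ω → ℕ) :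
    ∃ _ : LinearOrder Ω, WellFoundedLT Ω ∧ ∀ s t : Ω, s ≤ t → len s ≤ len t := by
  obtain ⟨o, ho⟩ := exists_wellFoundedLT (α := Ω)
  let e : Ω → ℕ ×ₗ Ω := fun t => toLex (len t, t)
  have he : Function.Injective e := fun s t h => congrArg (fun p => (ofLex p).2) h
  refine ⟨LinearOrder.lift' e he, ?_, ?_⟩
  · exact ⟨InvImage.wf e (wellFounded_lt (α := ℕ ×ₗ Ω))⟩
  · intro s t h
    have h' : e s ≤ e t := h
    rcases Prod.Lex.toLex_le_toLex.mp h' with h1 | h1
    · exact h1.le
    · exact h1.1.le

variable {B K : Type*} [Field K]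

/-- right translation on a right ideal -/
noncomputable def tr (I : Submodule (MonoidAlgebra K (FreeGroup B))ᵐᵒᵖ
    (MonoidAlgebra K (FreeGroup B))) (g : FreeGroup B) : I →ₗ[K] I where
  toFun m := op (MonoidAlgebra.single g (1 : K)) • m
  map_add' a b := smul_add _ a b
  map_smul' c a := by
    apply Subtype.ext
    simp

variable (I : Submodule (MonoidAlgebra K (FreeGroup B))ᵐᵒᵖ (MonoidAlgebra K (FreeGroup B)))

theorem tr_apply (g : FreeGroup B) (m : I) :
    tr I g m = op (MonoidAlgebra.single g (1 : K)) • m := rfl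

theorem tr_coe (g : FreeGroup B) (m : I) :
    (tr I g m : MonoidAlgebra K (FreeGroup B)) = m * MonoidAlgebra.single g (1 : K) := rfl

theorem tr_one (m : I) : tr I 1 m = m := by
  apply Subtype.ext
  rw [tr_coe, ← MonoidAlgebra.one_def, mul_one]

theorem tr_mul (g h : FreeGroup B) (m : I) : tr I (g * h) m = tr I h (tr I g m) := by
  apply Subtype.ext
  simp only [tr_coe, mul_assoc, MonoidAlgebra.single_mul_single, mul_one]

theorem ev_sm_tr (r : (MonoidAlgebra K (FreeGroup B))ᵐᵒᵖ) (v : I) :
    ev (tr I) (sm r.unop.coeff v) = r • v := by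
  rw [ev_sm]
  apply Subtype.ext
  have : ((r • v : I) : MonoidAlgebra K (FreeGroup B)) = v * r.unop := rfl
  rw [this]
  conv_rhs => rw [← MonoidAlgebra.sum_coeff_single r.unop]
  simp only [Finsupp.sum, AddSubmonoidClass.coe_finsetSum, Finset.mul_sum]
  refine Finset.sum_congr rfl fun g _ => ?_
  rw [Submodule.coe_smul_of_tower, tr_coe, ← mul_smul_comm, MonoidAlgebra.smul_single, smul_eq_mul,
    mul_one]

theorem main (T : Set (FreeGroup B)) (hT : ((cay B).induce T).Preconnected)
    (hI : I = Submodule.span (MonoidAlgebra K (FreeGroup B))ᵐᵒᵖ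
      {a | a ∈ I ∧ (a.coeff.support : Set (FreeGroup B)) ⊆ T})
    (f : MonoidAlgebra K (FreeGroup B)) (hfT : (f.coeff.support : Set (FreeGroup B)) ⊆ T)
    (S : Set (MonoidAlgebra K (FreeGroup B))) (hfS : f ∈ S)
    (hS : LinearIndepOn (MonoidAlgebra K (FreeGroup B))ᵐᵒᵖ id S)
    (hSI : Submodule.span (MonoidAlgebra K (FreeGroup B))ᵐᵒᵖ S = I) :
    ∃ S' : Set (MonoidAlgebra K (FreeGroup B)), f ∈ S' ∧
      LinearIndepOn (MonoidAlgebra K (FreeGroup B))ᵐᵒᵖ id S' ∧
      Submodule.span (MonoidAlgebra K (FreeGroup B))ᵐᵒᵖ S' = I ∧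
      ∀ a ∈ S', (a.coeff.support : Set (FreeGroup B)) ⊆ T := by
  classical
  have hrange : Submodule.span (MonoidAlgebra K (FreeGroup B))ᵐᵒᵖ
      (Set.range fun x : S => id (x : MonoidAlgebra K (FreeGroup B))) = I := by
    rw [← hSI]
    congr 1
    ext x
    simp
  let b : Module.Basis S (MonoidAlgebra K (FreeGroup B))ᵐᵒᵖ I :=
    (Module.Basis.span hS).map (LinearEquiv.ofEq _ _ hrange)
  have hb : ∀ s : S, (b s : MonoidAlgebra K (FreeGroup B)) = s := by
    intro s
    simp only [b, Module.Basis.map_apply, LinearEquiv.coe_ofEq_apply]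
    exact Module.Basis.coe_span_apply hS s
  let f0 : S := ⟨f, hfS⟩
  let φ0 : I → (S × FreeGroup B →₀ K) := fun m =>
    Finsupp.uncurry (((b.repr m).erase f0).mapRange (fun r => r.unop.coeff) rfl)
  have hφ0 : ∀ m s t, φ0 m (s, t) = if s = f0 then 0 else (b.repr m s).unop.coeff t := by
    intro m s t
    have : φ0 m (s, t) = (((b.repr m).erase f0) s).unop.coeff t := by
      simp only [φ0, Finsupp.uncurry_apply]
      rfl
    rw [this, Finsupp.erase_apply]
    split_ifs <;> simp
  let φ : I →ₗ[K] (S × FreeGroup B →₀ K) :=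
    { toFun := φ0
      map_add' := by
        intro m m'
        ext ⟨s, t⟩
        simp only [hφ0, Finsupp.add_apply, map_add]
        split_ifs <;> simp
      map_smul' := by
        intro c m
        ext ⟨s, t⟩
        have : b.repr (c • m) = c • b.repr m := b.repr.toLinearMap.map_smul_of_tower c m
        simp only [hφ0, Finsupp.smul_apply, this, RingHom.id_apply]
        split_ifs <;> simp }
  have hφ : ∀ m s t, φ m (s, t) = if s = f0 then 0 else (b.repr m s).unop.coeff t := hφ0
  let ψ : I →ₗ[K] (FreeGroup B →₀ K) :=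
    { toFun := fun m => (m : MonoidAlgebra K (FreeGroup B)).coeff
      map_add' := fun _ _ => rfl
      map_smul' := fun _ _ => rfl }
  have hψ : ∀ m, ψ m = (m : MonoidAlgebra K (FreeGroup B)).coeff := fun _ => rfl
  let V : Submodule K I := (Finsupp.supported K K T).comap ψ
  have hV : ∀ m, m ∈ V ↔ ((m : MonoidAlgebra K (FreeGroup B)).coeff.support :
      Set (FreeGroup B)) ⊆ T := fun m => Finsupp.mem_supported K _
  have hV' : ∀ m, m ∈ V ↔ ∀ t, ψ m t ≠ 0 → t ∈ T := by
    intro m
    rw [hV]
    constructor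
    · intro h t ht
      exact h (Finsupp.mem_support_iff.mpr ht)
    · intro h t ht
      exact h t (Finsupp.mem_support_iff.mp ht)
  have hpres : Presents (tr I) FreeGroup.of V :=
    presents_of_convex (tr I) (tr_one I) (tr_mul I) ψ (by
      intro g m t
      rw [hψ, hψ, tr_coe, MonoidAlgebra.coeff_mul_single_mul, mul_one]) T
      (convex_of_connected T hT) V hV'
  obtain ⟨ord, hwf, hlen⟩ := exists_order (S × FreeGroup B) fun t => norm t.2
  have hinv : ∀ e : B, (of e)⁻¹ = (mk [(e, false)] : FreeGroup B) := fun e =>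
    (mk_not (e, true)).symm
  have hf0 : φ (b f0) = 0 := by
    ext ⟨s, t⟩
    rw [hφ]
    split_ifs with h
    · rfl
    · simp [Finsupp.single_eq_of_ne h]
  have hker' : ∀ m, φ m = 0 → m = b.repr m f0 • b f0 := by
    intro m hm
    apply b.repr.injective
    ext s : 1
    rw [map_smul, b.repr_self, Finsupp.smul_apply]
    by_cases h : s = f0
    · subst h
      simp
    · rw [Finsupp.single_eq_of_ne h, smul_zero]
      apply unop_injective
      apply MonoidAlgebra.coeff_injective
      ext t
      have := hφ m s t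
      rw [hm, if_neg h] at this
      simpa using this.symm
  obtain ⟨P, v, hvV, hgen, hind⟩ := peel (tr I) FreeGroup.of (tr_one I) (tr_mul I) φ
    (fun t g => (t.1, t.2 * g)) (by intro t g; simp)
    (by
      rintro g m ⟨s, t⟩
      rw [hφ, hφ, tr_apply, map_smul, Finsupp.smul_apply]
      split_ifs
      · rfl
      · simp)
    (by
      intro t e e' h h'
      have := letter_unique t.2 (e, true) (e', true) (hlen _ _ h) (hlen _ _ h')
      simpa using this)
    (by
      intro t e e' h h'
      rw [hinv] at h h'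
      have := letter_unique t.2 (e, false) (e', false) (hlen _ _ h) (hlen _ _ h')
      simpa using this)
    (by
      intro t e e' h h'
      rw [hinv] at h'
      have := letter_unique t.2 (e, true) (e', false) (hlen _ _ h) (hlen _ _ h')
      simp at this)
    V hpres (b f0) (by rw [hV, hb]; exact hfT) hf0
    (fun m hm => ⟨(b.repr m f0).unop.coeff, by rw [ev_sm_tr]; exact hker' m hm⟩)
  let w : Option P → I := fun o => o.elim (b f0) v
  have hw : LinearIndependent (MonoidAlgebra K (FreeGroup B))ᵐᵒᵖ w := by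
    have h1 : ∀ (l : P →₀ (MonoidAlgebra K (FreeGroup B))ᵐᵒᵖ),
        φ (Finsupp.linearCombination _ v l) = 0 → l = 0 := by
      intro l hl
      have h2 := hind l.support (fun t => (l t).unop.coeff) (by
        simp only [ev_sm_tr]
        exact hl)
      ext t : 1
      by_contra h3
      apply h3
      apply unop_injective
      apply MonoidAlgebra.coeff_injective
      exact h2 t (Finsupp.mem_support_iff.mpr h3)
    have hφr : ∀ r : (MonoidAlgebra K (FreeGroup B))ᵐᵒᵖ, φ (r • b f0) = 0 := by
      intro r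
      ext ⟨s, t⟩
      rw [hφ]
      split_ifs with h
      · rfl
      · simp [Finsupp.single_eq_of_ne h]
    rw [linearIndependent_iff]
    intro l hl
    rw [Finsupp.linearCombination_option] at hl
    change l none • b f0 + Finsupp.linearCombination _ v l.some = 0 at hl
    have h6 := congrArg φ hl
    rw [map_add, hφr, zero_add, map_zero] at h6
    have h7 := h1 _ h6
    rw [h7, map_zero, add_zero] at hl
    have h8 : l none = 0 := by
      have h9 := congrArg (fun m => b.repr m f0) hl
      simpa using h9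
    ext o : 1
    cases o with
    | none => exact h8
    | some t => rw [← Finsupp.some_apply, h7]; rfl
  have hw' : LinearIndependent (MonoidAlgebra K (FreeGroup B))ᵐᵒᵖ (I.subtype ∘ w) :=
    hw.map' I.subtype I.ker_subtype
  refine ⟨Set.range (I.subtype ∘ w), ⟨none, hb f0⟩, hw'.linearIndepOn_id, ?_, ?_⟩
  · apply le_antisymm
    · rw [Submodule.span_le]
      rintro _ ⟨o, rfl⟩
      exact (w o).2
    · let W : Submodule K I := ((Submodule.span (MonoidAlgebra K (FreeGroup B))ᵐᵒᵖ
        (Set.range (I.subtype ∘ w))).comap I.subtype).restrictScalars K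
      have hVW : V ≤ W := hgen W
        (fun g m hm => Submodule.smul_mem _ (op (MonoidAlgebra.single g (1 : K))) hm)
        (Submodule.subset_span ⟨none, rfl⟩) (fun t => Submodule.subset_span ⟨some t, rfl⟩)
      conv_lhs => rw [hI]
      rw [Submodule.span_le]
      rintro a ⟨haI, haT⟩
      exact hVW ((hV ⟨a, haI⟩).mpr haT)
  · rintro _ ⟨o, rfl⟩
    cases o with
    | none =>
      change (((b f0 : I) : MonoidAlgebra K (FreeGroup B)).coeff.support : Set _) ⊆ T
      rw [hb]
      exact hfT
    | some t => exact (hV _).mp (hvV t)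

end Pool.Agent.Work.MP_1698af_al
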