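import Pool.Agent.Work.MP_1698af_al.Core
import Mathlib.GroupTheory.FreeGroup.Reduce
import Mathlib.Combinatorics.SimpleGraph.Connectivity.Connected
import Mathlib.Tactic.Group

/-! Free group facts and exactness of the presentation attached to a subtree. -/

set_option autoImplicit false

namespace Pool.Agent.Work.MP_1698af_al

open FreeGroup

variable {B : Type*} [DecidableEq B]

omit [DecidableEq B] in
theorem isReduced_append_iff {u w : List (B × Bool)} : IsReduced (u ++ w) ↔
    IsReduced u ∧ IsReduced w ∧ ∀ x ∈ u.getLast?, ∀ y ∈ w.head?, x.1 = y.1 → x.2 = y.2 :=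
  List.isChain_append

theorem isReduced_invRev {w : List (B × Bool)} (h : IsReduced w) : IsReduced (invRev w) := by
  rw [isReduced_iff_reduce_eq] at h ⊢
  rw [reduce_invRev, h]

omit [DecidableEq B] in
theorem mk_not (c : B × Bool) : (mk [(c.1, !c.2)] : FreeGroup B) = (mk [c])⁻¹ := by
  rw [inv_mk]; simp [invRev]

theorem reduced_or_cancel (y : FreeGroup B) (d : B × Bool) :
    (y * mk [d]).toWord = y.toWord ++ [d] ∨
      y.toWord = (y * mk [d]).toWord ++ [(d.1, !d.2)] := by
  by_cases h : IsReduced (y.toWord ++ [d])
  · left
    conv_lhs => rw [← mk_toWord (x := y)]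
    rw [mul_mk, toWord_mk, h.reduce_eq]
  · right
    rw [isReduced_append_iff] at h
    simp only [isReduced_toWord, IsReduced.singleton, true_and, not_forall] at h
    obtain ⟨x, hx, z, hz, h1, h2⟩ := h
    simp only [List.head?_cons, Option.mem_def, Option.some.injEq] at hz
    subst hz
    obtain ⟨w, hw⟩ := List.getLast?_eq_some_iff.mp hx
    have hxd : x = (d.1, !d.2) := by
      rcases x with ⟨x1, x2⟩
      rcases d with ⟨d1, d2⟩
      simp only at h1 h2 ⊢
      subst h1
      cases x2 <;> cases d2 <;> simp_all
    have hr : IsReduced w := (isReduced_append_iff.mp (hw ▸ isReduced_toWord)).1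
    have : y * mk [d] = mk w := by
      conv_lhs => rw [← mk_toWord (x := y), hw, hxd, ← mul_mk, mk_not]
      group
    rw [this, toWord_mk, hr.reduce_eq, hw, hxd]

theorem letter_unique (x : FreeGroup B) (c c' : B × Bool) (h : norm (x * mk [c]) ≤ norm x)
    (h' : norm (x * mk [c']) ≤ norm x) : c = c' := by
  rcases reduced_or_cancel x c with h1 | h1
  · simp [norm, h1] at h
  rcases reduced_or_cancel x c' with h2 | h2
  · simp [norm, h2] at h'
  have h3 := List.append_inj_right' (h1.symm.trans h2) rfl
  simp only [List.cons.injEq, Prod.mk.injEq, and_true] at h3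
  exact Prod.ext h3.1 (by simpa using h3.2)

theorem head_step (y : FreeGroup B) (c d : B × Bool) (h : y.toWord.head? ≠ some c)
    (h' : (y * mk [d]).toWord.head? = some c) : y = 1 ∧ d = c := by
  rcases reduced_or_cancel y d with h1 | h1
  · rw [h1] at h'
    rcases hw : y.toWord with _ | ⟨e, W⟩
    · rw [hw] at h'
      exact ⟨toWord_eq_nil_iff.mp hw, by simpa using h'⟩
    · rw [hw] at h h'
      exact absurd h' h
  · exfalso
    apply h
    rw [h1]
    rcases hw : (y * mk [d]).toWord with _ | ⟨e, W⟩
    · simp [hw] at h'
    · rw [hw] at h'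
      exact h'

theorem norm_inv_mul (y g : FreeGroup B) (c : B × Bool) (h : y.toWord.head? ≠ some c)
    (hg : g.toWord.head? = some c) : norm (y⁻¹ * g) = norm y + norm g := by
  have hr : IsReduced (invRev y.toWord ++ g.toWord) := by
    rw [isReduced_append_iff]
    refine ⟨isReduced_invRev isReduced_toWord, isReduced_toWord, ?_⟩
    intro a ha b hb h1
    rw [hg] at hb
    simp only [Option.mem_def, Option.some.injEq] at hb
    subst hb
    simp only [invRev, List.getLast?_reverse, List.head?_map, Option.mem_def,
      Option.map_eq_some_iff] at ha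
    obtain ⟨e, he, rfl⟩ := ha
    by_contra h2
    apply h
    rw [he]
    rcases e with ⟨e1, e2⟩
    rcases c with ⟨c1, c2⟩
    simp only at h1 h2
    subst h1
    cases e2 <;> cases c2 <;> simp_all
  rw [norm, toWord_mul, toWord_inv, hr.reduce_eq]
  simp [norm]

/-- the Cayley graph -/
abbrev cay (B : Type*) : SimpleGraph (FreeGroup B) :=
  SimpleGraph.fromRel fun g h => ∃ b : B, h = g * FreeGroup.of b

theorem convex_of_connected (T : Set (FreeGroup B)) (hT : ((cay B).induce T).Preconnected)
    (x : FreeGroup B) (hx : x ∈ T) (c : B × Bool) (hc : x * mk [c] ∉ T) (z : FreeGroup B)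
    (hz : z ∈ T) : (x⁻¹ * z).toWord.head? ≠ some c := by
  have key : ∀ a b : T, ((cay B).induce T).Walk a b →
      (x⁻¹ * a.1).toWord.head? ≠ some c → (x⁻¹ * b.1).toWord.head? ≠ some c := by
    intro a b w
    induction w with
    | nil => exact id
    | @cons a a' b hadj w ih =>
      intro ha
      apply ih
      intro ha'
      have h1 : ∃ d : B × Bool, a'.1 = a.1 * mk [d] := by
        simp only [SimpleGraph.induce_adj, SimpleGraph.fromRel_adj] at hadj
        rcases hadj.2 with ⟨e, he⟩ | ⟨e, he⟩
        · exact ⟨(e, true), he⟩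
        · refine ⟨(e, false), ?_⟩
          have : (mk [(e, false)] : FreeGroup B) = (of e)⁻¹ := mk_not (e, true)
          rw [this, he]
          simp
      obtain ⟨d, hd⟩ := h1
      rw [hd, ← mul_assoc] at ha'
      obtain ⟨h2, rfl⟩ := head_step _ _ _ ha ha'
      rw [inv_mul_eq_one] at h2
      apply hc
      rw [h2, ← hd]
      exact a'.2
  obtain ⟨w⟩ := hT ⟨x, hx⟩ ⟨z, hz⟩
  exact key _ _ w (by simp)

variable {K M : Type*} [Field K] [AddCommGroup M] [Module K M]

theorem presents_of_convex (τ : FreeGroup B → M →ₗ[K] M) (hτ1 : ∀ m, τ 1 m = m)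
    (hτm : ∀ g h m, τ (g * h) m = τ h (τ g m)) (ψ : M →ₗ[K] (FreeGroup B →₀ K))
    (hψ : ∀ g m t, ψ (τ g m) (t * g) = ψ m t) (T : Set (FreeGroup B))
    (hT : ∀ x ∈ T, ∀ c : B × Bool, x * mk [c] ∉ T → ∀ z ∈ T, (x⁻¹ * z).toWord.head? ≠ some c)
    (V : Submodule K M) (hV : ∀ m, m ∈ V ↔ ∀ t, ψ m t ≠ 0 → t ∈ T) :
    Presents τ FreeGroup.of V := by
  classical
  have main : ∀ n : ℕ, ∀ x : FreeGroup B →₀ M, ∑ g ∈ x.support, (norm g + 1) = n →
      (∀ g, x g ∈ V) → ev τ x = 0 →
      ∃ u : B × FreeGroup B →₀ M, (∀ p, u p ∈ V ∧ τ (of p.1) (u p) ∈ V) ∧ x = bd τ of u := by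
    intro n
    induction n using Nat.strong_induction_on with
    | _ n ih =>
      intro x hn hxV hx0
      by_cases h0 : x = 0
      · exact ⟨0, by simp, by simp [h0]⟩
      obtain ⟨g, hg, hmax⟩ := Finset.exists_max_image x.support norm
        (Finsupp.support_nonempty_iff.mpr h0)
      rcases hw : g.toWord with _ | ⟨c, W⟩
      · exfalso
        have hg1 : g = 1 := toWord_eq_nil_iff.mp hw
        subst hg1
        rw [ev_apply, Finset.sum_eq_single 1, hτ1] at hx0
        · exact Finsupp.mem_support_iff.mp hg hx0
        · intro b hb hb1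
          have := hmax b hb
          rw [norm_one, Nat.le_zero, norm_eq_zero] at this
          exact absurd this hb1
        · intro h
          exact absurd hg h
      have hhead : g.toWord.head? = some c := by rw [hw]; rfl
      have hWr : IsReduced W := (isReduced_append_iff (u := [c]) (w := W)).mp
        (by simpa [← hw] using isReduced_toWord (x := g)) |>.2.1
      have hgW : g = mk [c] * mk W := by
        rw [mul_mk]
        conv_lhs => rw [← mk_toWord (x := g), hw]
        rfl
      have hnorm : norm g = norm (mk W : FreeGroup B) + 1 := by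
        simp [norm, hw, hWr.reduce_eq]
      have hcV : τ (mk [c]) (x g) ∈ V := by
        rw [hV]
        intro t ht
        by_contra htT
        have e1 : t = t * (mk [c])⁻¹ * mk [c] := by group
        set y := t * (mk [c])⁻¹ with hy
        rw [e1, hψ] at ht
        have hyT : y ∈ T := (hV _).mp (hxV g) y ht
        have h1 := congrArg (fun m => ψ m (y * g)) hx0
        simp only [ev_apply, map_sum, Finsupp.finsetSum_apply, map_zero, Finsupp.zero_apply] at h1
        rw [Finset.sum_eq_single g, hψ] at h1
        · exact ht h1
        · intro g' hg' hne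
          by_contra h2
          have e2 : y * g = y * g * g'⁻¹ * g' := by group
          rw [e2, hψ] at h2
          have h3 := hT y hyT c (e1 ▸ htT) _ ((hV _).mp (hxV g') _ h2)
          have h4 := norm_inv_mul _ g c h3 hhead
          have e3 : (y⁻¹ * (y * g * g'⁻¹))⁻¹ * g = g' := by group
          rw [e3] at h4
          have h5 := hmax g' hg'
          have h6 : norm (y⁻¹ * (y * g * g'⁻¹)) = 0 := by omega
          rw [norm_eq_zero] at h6
          rw [h6, inv_one, one_mul] at e3
          exact hne e3.symm
        · intro h
          exact absurd hg h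
      let x' : FreeGroup B →₀ M :=
        x - Finsupp.single g (x g) + Finsupp.single (mk W) (τ (mk [c]) (x g))
      have hsupp : x'.support ⊆ insert (mk W) (x.support.erase g) := by
        intro k hk
        rw [Finsupp.mem_support_iff] at hk
        by_contra hk'
        simp only [Finset.mem_insert, Finset.mem_erase, Finsupp.mem_support_iff, not_or,
          not_and, not_not] at hk'
        apply hk
        simp only [x', Finsupp.add_apply, Finsupp.sub_apply]
        rw [Finsupp.single_eq_of_ne hk'.1, add_zero]
        by_cases hkg : k = g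
        · subst hkg
          simp
        · rw [Finsupp.single_eq_of_ne hkg, hk'.2 hkg, sub_zero]
      have hlt : ∑ k ∈ x'.support, (norm k + 1) < n := by
        have h1 := Finset.sum_le_sum_of_subset (f := fun k : FreeGroup B => norm k + 1) hsupp
        have h2 : ∑ k ∈ insert (mk W) (x.support.erase g), (norm k + 1) ≤
            (norm (mk W : FreeGroup B) + 1) + ∑ k ∈ x.support.erase g, (norm k + 1) := by
          by_cases hm : mk W ∈ x.support.erase g
          · rw [Finset.insert_eq_of_mem hm]
            omega
          · rw [Finset.sum_insert hm]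
        have h3 := Finset.add_sum_erase x.support (fun k : FreeGroup B => norm k + 1) hg
        omega
      have hx'V : ∀ k, x' k ∈ V := by
        intro k
        simp only [x', Finsupp.add_apply, Finsupp.sub_apply, Finsupp.single_apply]
        refine V.add_mem (V.sub_mem (hxV k) ?_) ?_
        · split_ifs
          · exact hxV g
          · exact V.zero_mem
        · split_ifs
          · exact hcV
          · exact V.zero_mem
      have hx'0 : ev τ x' = 0 := by
        simp only [x', map_add, map_sub, ev_single, hx0]
        rw [← hτm, ← hgW]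
        simp
      obtain ⟨u, huV, hu⟩ := ih _ hlt x' rfl hx'V hx'0
      have hstep : ∃ u0 : B × FreeGroup B →₀ M, (∀ p, u0 p ∈ V ∧ τ (of p.1) (u0 p) ∈ V) ∧
          Finsupp.single g (x g) - Finsupp.single (mk W) (τ (mk [c]) (x g)) = bd τ of u0 := by
        rcases c with ⟨b, _ | _⟩
        · have e : (mk [(b, false)] : FreeGroup B) = (of b)⁻¹ := mk_not (b, true)
          have e2 : τ (of b) (τ (mk [(b, false)]) (x g)) = x g := by
            rw [← hτm, e, inv_mul_cancel, hτ1]
          have e3 : of b * g = mk W := by rw [hgW, e]; group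
          refine ⟨Finsupp.single (b, g) (-τ (mk [(b, false)]) (x g)), ?_, ?_⟩
          · intro p
            rw [Finsupp.single_apply]
            split_ifs with hp
            · subst hp
              exact ⟨V.neg_mem hcV, by rw [map_neg, e2]; exact V.neg_mem (hxV g)⟩
            · simp
          · rw [bd_single, map_neg, e2, e3, Finsupp.single_neg, Finsupp.single_neg]
            abel
        · refine ⟨Finsupp.single (b, mk W) (x g), ?_, ?_⟩
          · intro p
            rw [Finsupp.single_apply]
            split_ifs with hp
            · subst hp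
              exact ⟨hxV g, hcV⟩
            · simp
          · rw [bd_single]
            congr 2
      obtain ⟨u0, hu0V, hu0⟩ := hstep
      refine ⟨u + u0, fun p => ?_, ?_⟩
      · rw [Finsupp.add_apply, map_add]
        exact ⟨V.add_mem (huV p).1 (hu0V p).1, V.add_mem (huV p).2 (hu0V p).2⟩
      · rw [map_add, ← hu, ← hu0]
        simp only [x']
        abel
  intro x hxV hx0
  exact main _ x rfl hxV hx0

end Pool.Agent.Work.MP_1698af_al
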